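import Pool.Agent.R664.FC.Defs

set_option autoImplicit false

universe u

namespace Pool.Agent.R664.FC

open Relation

variable {S : Type u} [Monoid S]

/-- equality in the tensor product -/
abbrev TEq (A : RAct S) (X : LAct S) : A.carrier × X.carrier → A.carrier × X.carrier → Prop :=
  EqvGen (TRel A X)

theorem flat_iff (A : RAct S) : Flat A ↔ ∀ (X Y : LAct S) (f : LHom X Y),
    Function.Injective f.toFun → ∀ a x a' x', TEq A Y (a, f.toFun x) (a', f.toFun x') →
      TEq A X (a, x) (a', x') := by
  constructor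
  · intro h X Y f hf a x a' x' hE
    apply Quot.eqvGen_exact
    apply h X Y f hf
    exact Quot.eqvGen_sound hE
  · intro h X Y f hf p q hpq
    obtain ⟨⟨a, x⟩, rfl⟩ := Quot.exists_rep p
    obtain ⟨⟨a', x'⟩, rfl⟩ := Quot.exists_rep q
    exact Quot.eqvGen_sound (h X Y f hf a x a' x' (Quot.eqvGen_exact hpq))

theorem TEq.mapR {A B : RAct S} (g : RHom A B) {X : LAct S} {p q : A.carrier × X.carrier}
    (h : TEq A X p q) : TEq B X (g.toFun p.1, p.2) (g.toFun q.1, q.2) := by
  induction h with
  | rel p q h =>
    obtain ⟨a, s, x, rfl, rfl⟩ := h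
    exact EqvGen.rel _ _ ⟨g.toFun a, s, x, by rw [← g.map_act], rfl⟩
  | refl p => exact EqvGen.refl _
  | symm p q _ ih => exact EqvGen.symm _ _ ih
  | trans p q r _ _ ih1 ih2 => exact EqvGen.trans _ _ _ ih1 ih2

theorem TEq.single {A : RAct S} {X : LAct S} (a : A.carrier) (s : S) (x : X.carrier) :
    TEq A X (A.act a s, x) (a, X.act s x) := EqvGen.rel _ _ ⟨a, s, x, rfl, rfl⟩

/-- elementary moves -/
def St (A : RAct S) (Y : LAct S) (p q : A.carrier × Y.carrier) : Prop :=
  (∃ s, A.act q.1 s = p.1 ∧ q.2 = Y.act s p.2) ∨ (∃ s, q.1 = A.act p.1 s ∧ p.2 = Y.act s q.2)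

theorem St.symm {A : RAct S} {Y : LAct S} {p q : A.carrier × Y.carrier} (h : St A Y p q) :
    St A Y q p := by
  rcases h with ⟨s, h1, h2⟩ | ⟨s, h1, h2⟩
  · exact Or.inr ⟨s, h1.symm, h2⟩
  · exact Or.inl ⟨s, h1.symm, h2⟩

theorem St.teq {A : RAct S} {Y : LAct S} {p q : A.carrier × Y.carrier} (h : St A Y p q) :
    TEq A Y p q := by
  obtain ⟨a, y⟩ := p
  obtain ⟨b, z⟩ := q
  rcases h with ⟨s, h1, h2⟩ | ⟨s, h1, h2⟩
  · simp only at h1 h2
    rw [← h1, h2]
    exact TEq.single _ _ _
  · simp only at h1 h2
    rw [h1, h2]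
    exact EqvGen.symm _ _ (TEq.single _ _ _)

theorem TEq.path {A : RAct S} {Y : LAct S} {p q : A.carrier × Y.carrier} (h : TEq A Y p q) :
    ReflTransGen (St A Y) p q := by
  induction h with
  | rel p q h =>
    obtain ⟨a, s, x, rfl, rfl⟩ := h
    exact ReflTransGen.single (Or.inl ⟨s, rfl, rfl⟩)
  | refl p => exact ReflTransGen.refl
  | symm p q _ ih =>
    clear * - ih
    induction ih with
    | refl => exact ReflTransGen.refl
    | tail _ h ih => exact ReflTransGen.head h.symm ih
  | trans p q r _ _ ih1 ih2 => exact ih1.trans ih2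

/-- quotients of acts -/
def RAct.quot (A : RAct S) (r : Setoid A.carrier)
    (hr : ∀ a b s, r a b → r (A.act a s) (A.act b s)) : RAct S where
  carrier := Quotient r
  nonempty := A.nonempty.map fun a => Quotient.mk r a
  act := fun q s => Quotient.map (fun a => A.act a s) (fun a b h => hr a b s h) q
  act_one := by
    intro q
    induction q using Quotient.inductionOn with
    | h a => exact congrArg _ (A.act_one a)
  act_mul := by
    intro q s t
    induction q using Quotient.inductionOn with
    | h a => exact congrArg _ (A.act_mul a s t)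

/-- the projection -/
def RAct.proj (A : RAct S) (r : Setoid A.carrier)
    (hr : ∀ a b s, r a b → r (A.act a s) (A.act b s)) : RHom A (A.quot r hr) where
  toFun := fun a => Quotient.mk r a
  map_act := fun _ _ => rfl

theorem proj_surj (A : RAct S) (r : Setoid A.carrier)
    (hr : ∀ a b s, r a b → r (A.act a s) (A.act b s)) :
    Function.Surjective (A.proj r hr).toFun := Quotient.mk_surjective

theorem proj_eq {A : RAct S} {r : Setoid A.carrier}
    {hr : ∀ a b s, r a b → r (A.act a s) (A.act b s)} {a b : A.carrier} :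
    (A.proj r hr).toFun a = (A.proj r hr).toFun b ↔ r a b := Quotient.eq

/-- morphisms from a quotient -/
def RAct.desc (A : RAct S) (r : Setoid A.carrier)
    (hr : ∀ a b s, r a b → r (A.act a s) (A.act b s)) {B : RAct S} (g : RHom A B)
    (hg : ∀ a b, r a b → g.toFun a = g.toFun b) : RHom (A.quot r hr) B where
  toFun := Quotient.lift g.toFun hg
  map_act := by
    intro q s
    induction q using Quotient.inductionOn with
    | h a => exact g.map_act a s

/-- composition -/
def RHom.comp {A B C : RAct S} (g : RHom B C) (f : RHom A B) : RHom A C where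
  toFun := fun a => g.toFun (f.toFun a)
  map_act := fun a s => by rw [f.map_act, g.map_act]

/-- identity -/
def RHom.id (A : RAct S) : RHom A A where
  toFun := fun a => a
  map_act := fun _ _ => rfl

/-- the inverse of a bijective morphism -/
noncomputable def RHom.inv {A B : RAct S} (g : RHom A B) (hg : Function.Bijective g.toFun) :
    RHom B A where
  toFun := (Equiv.ofBijective g.toFun hg).symm
  map_act := by
    intro b s
    apply hg.1
    rw [g.map_act]
    have h : ∀ c, g.toFun ((Equiv.ofBijective g.toFun hg).symm c) = c :=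
      fun c => (Equiv.ofBijective g.toFun hg).apply_symm_apply c
    rw [h, h]

theorem RHom.inv_apply {A B : RAct S} (g : RHom A B) (hg : Function.Bijective g.toFun)
    (b : B.carrier) : g.toFun ((g.inv hg).toFun b) = b :=
  (Equiv.ofBijective g.toFun hg).apply_symm_apply b

theorem RHom.inv_apply' {A B : RAct S} (g : RHom A B) (hg : Function.Bijective g.toFun)
    (a : A.carrier) : (g.inv hg).toFun (g.toFun a) = a := hg.1 (g.inv_apply hg _)

/-- flatness is invariant under isomorphism -/
theorem flat_of_iso {A B : RAct S} (g : RHom A B) (hg : Function.Bijective g.toFun)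
    (hB : Flat B) : Flat A := by
  rw [flat_iff] at hB ⊢
  intro X Y f hf a x a' x' h
  have h1 := hB X Y f hf _ _ _ _ (TEq.mapR g h)
  have h2 := TEq.mapR (g.inv hg) h1
  simpa only [RHom.inv_apply'] using h2

/-- the free cyclic act -/
def freeAct (S : Type u) [Monoid S] : RAct S where
  carrier := S
  nonempty := ⟨1⟩
  act := fun a s => a * s
  act_one := mul_one
  act_mul := fun a s t => (mul_assoc a s t).symm

theorem flat_free : Flat (freeAct S) := by
  rw [flat_iff]
  intro X Y f hf a x a' x' h
  have key : ∀ (Z : LAct S) (p q : (freeAct S).carrier × Z.carrier), TEq (freeAct S) Z p q →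
      Z.act p.1 p.2 = Z.act q.1 q.2 := by
    intro Z p q h
    induction h with
    | rel p q h =>
      obtain ⟨a, s, x, rfl, rfl⟩ := h
      exact Z.mul_act a s x
    | refl p => rfl
    | symm p q _ ih => exact ih.symm
    | trans p q r _ _ ih1 ih2 => exact ih1.trans ih2
  have h1 := key Y _ _ h
  have h2 : X.act a x = X.act a' x' := hf ((f.map_act a x).trans (Eq.trans h1 (f.map_act a' x').symm))
  have h3 : ∀ (b : S) (z : X.carrier), TEq (freeAct S) X (b, z) ((1 : S), X.act b z) := by
    intro b z
    have := TEq.single (A := freeAct S) (X := X) (1 : S) b z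
    have e : (freeAct S).act (1 : S) b = b := one_mul b
    rwa [e] at this
  refine EqvGen.trans _ _ _ (h3 a x) ?_
  rw [h2]
  exact EqvGen.symm _ _ (h3 a' x')

/-- coproducts of acts -/
def coprod {I : Type u} [hI : Nonempty I] (F : I → RAct S) : RAct S where
  carrier := Σ i, (F i).carrier
  nonempty := hI.elim fun i => (F i).nonempty.map fun a => ⟨i, a⟩
  act := fun p s => ⟨p.1, (F p.1).act p.2 s⟩
  act_one := fun p => by rw [(F p.1).act_one]
  act_mul := fun p s t => by rw [(F p.1).act_mul]

/-- the injections of a coproduct -/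
def inj {I : Type u} [hI : Nonempty I] (F : I → RAct S) (i : I) : RHom (F i) (coprod F) where
  toFun := fun a => ⟨i, a⟩
  map_act := fun _ _ => rfl

theorem flat_coprod {I : Type u} [hI : Nonempty I] (F : I → RAct S) (hF : ∀ i, Flat (F i)) :
    Flat (coprod F) := by
  rw [flat_iff]
  intro X Y f hf a x a' x' h
  obtain ⟨i, a⟩ := a
  obtain ⟨j, b⟩ := a'
  have key : ∀ (p q : (coprod F).carrier × Y.carrier), TEq (coprod F) Y p q →
      (⟨p.1.1, Quot.mk _ (p.1.2, p.2)⟩ : Σ i, Tensor (F i) Y) =
        ⟨q.1.1, Quot.mk _ (q.1.2, q.2)⟩ := by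
    intro p q h
    induction h with
    | rel p q h =>
      obtain ⟨⟨i, a⟩, s, x, rfl, rfl⟩ := h
      have : (Quot.mk (TRel (F i) Y) ((F i).act a s, x)) = Quot.mk _ (a, Y.act s x) :=
        Quot.sound ⟨a, s, x, rfl, rfl⟩
      exact congrArg (fun t => (⟨i, t⟩ : Σ i, Tensor (F i) Y)) this
    | refl p => rfl
    | symm p q _ ih => exact ih.symm
    | trans p q r _ _ ih1 ih2 => exact ih1.trans ih2
  have h1 := key _ _ h
  simp only at h1
  have hij : i = j := congrArg Sigma.fst h1
  subst hij
  have h2 := eq_of_heq (Sigma.mk.inj_iff.1 h1).2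
  have h3 := Quot.eqvGen_exact h2
  exact TEq.mapR (inj F i) ((flat_iff _).1 (hF i) X Y f hf _ _ _ _ h3)

end Pool.Agent.R664.FC
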