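import Pool.Agent.R664.FC.Basic

set_option autoImplicit false

universe u

namespace Pool.Agent.R664.FC

open Relation

variable {S : Type u} [Monoid S]

/-- the data of a flat quotient of `F` over `h : F → A` -/
def FQ {F A : RAct S} (h : RHom F A) : Set (Setoid F.carrier) :=
  {r | (∀ a b, r a b → h.toFun a = h.toFun b) ∧
    ∃ hr : ∀ a b s, r a b → r (F.act a s) (F.act b s), Flat (F.quot r hr)}

/-- projections between quotients -/
def RAct.proj2 (A : RAct S) (r r' : Setoid A.carrier)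
    (hr : ∀ a b s, r a b → r (A.act a s) (A.act b s))
    (hr' : ∀ a b s, r' a b → r' (A.act a s) (A.act b s)) (h : ∀ a b, r a b → r' a b) :
    RHom (A.quot r hr) (A.quot r' hr') :=
  A.desc r hr (A.proj r' hr') fun a b hab => proj_eq.2 (h a b hab)

/-- flatness of quotients by unions of chains -/
theorem chain_ub {F A : RAct S} (h : RHom F A) (c : Set (Setoid F.carrier)) (hc : c ⊆ FQ h)
    (hch : IsChain (· ≤ ·) c) (r0 : Setoid F.carrier) (hr0 : r0 ∈ c) :
    ∃ ub ∈ FQ h, ∀ z ∈ c, z ≤ ub := by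
  have dir : ∀ r ∈ c, ∀ r' ∈ c, ∃ r'' ∈ c, r ≤ r'' ∧ r' ≤ r'' := by
    intro r hr r' hr'
    rcases hch.total hr hr' with h | h
    · exact ⟨r', hr', h, le_rfl⟩
    · exact ⟨r, hr, le_rfl, h⟩
  let σ : Setoid F.carrier :=
    { r := fun a b => ∃ r ∈ c, r a b
      iseqv := ⟨fun a => ⟨r0, hr0, r0.refl a⟩, fun ⟨r, hr, h⟩ => ⟨r, hr, r.symm h⟩,
        fun {a b d} ⟨r, hr, h⟩ ⟨r', hr', h'⟩ => by
          obtain ⟨r'', hr'', h1, h2⟩ := dir r hr r' hr'
          exact ⟨r'', hr'', r''.trans (h1 h) (h2 h')⟩⟩ }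
  have hσ : ∀ a b, σ a b ↔ ∃ r ∈ c, r a b := fun a b => Iff.rfl
  have hσc : ∀ a b s, σ a b → σ (F.act a s) (F.act b s) := by
    rintro a b s ⟨r, hr, h⟩
    obtain ⟨_, hr1, _⟩ := hc hr
    exact ⟨r, hr, hr1 _ _ _ h⟩
  refine ⟨σ, ⟨?_, hσc, ?_⟩, fun r hr a b hab => ⟨r, hr, hab⟩⟩
  · rintro a b ⟨r, hr, h⟩
    exact (hc hr).1 _ _ h
  rw [flat_iff]
  intro X Y f hf a x a' x' hE
  obtain ⟨a, rfl⟩ := proj_surj F σ hσc a
  obtain ⟨a', rfl⟩ := proj_surj F σ hσc a'
  -- the equality already holds at some stage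
  have key : ∀ p q : (F.quot σ hσc).carrier × Y.carrier, TEq (F.quot σ hσc) Y p q →
      ∀ a a', p.1 = (F.proj σ hσc).toFun a → q.1 = (F.proj σ hσc).toFun a' →
        ∃ (r : Setoid F.carrier) (_ : r ∈ c) (hr : ∀ a b s, r a b → r (F.act a s) (F.act b s)),
          TEq (F.quot r hr) Y ((F.proj r hr).toFun a, p.2) ((F.proj r hr).toFun a', q.2) := by
    intro p q hpq
    induction hpq with
    | rel p q h =>
      obtain ⟨b, s, y, rfl, rfl⟩ := h
      obtain ⟨b, rfl⟩ := proj_surj F σ hσc b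
      intro a a' h1 h2
      simp only at h1 h2
      rw [← (F.proj σ hσc).map_act, proj_eq] at h1
      rw [proj_eq] at h2
      obtain ⟨r1, hr1, e1⟩ := h1
      obtain ⟨r2, hr2, e2⟩ := h2
      obtain ⟨r, hr, i1, i2⟩ := dir r1 hr1 r2 hr2
      obtain ⟨_, hrc, _⟩ := hc hr
      refine ⟨r, hr, hrc, ?_⟩
      simp only
      rw [← (proj_eq (hr := hrc)).2 (i1 e1), ← (proj_eq (hr := hrc)).2 (i2 e2),
        (F.proj r hrc).map_act]
      exact TEq.single _ _ _
    | refl p =>
      intro a a' h1 h2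
      rw [h1, proj_eq] at h2
      obtain ⟨r, hr, e⟩ := h2
      obtain ⟨_, hrc, _⟩ := hc hr
      refine ⟨r, hr, hrc, ?_⟩
      rw [(proj_eq (hr := hrc)).2 e]
      exact EqvGen.refl _
    | symm p q _ ih =>
      intro a a' h1 h2
      obtain ⟨r, hr, hrc, e⟩ := ih a' a h2 h1
      exact ⟨r, hr, hrc, EqvGen.symm _ _ e⟩
    | trans p q t _ _ ih1 ih2 =>
      intro a a' h1 h2
      obtain ⟨b, hb⟩ := proj_surj F σ hσc q.1
      obtain ⟨r1, hr1, hrc1, e1⟩ := ih1 a b h1 hb.symm
      obtain ⟨r2, hr2, hrc2, e2⟩ := ih2 b a' hb.symm h2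
      obtain ⟨r, hr, i1, i2⟩ := dir r1 hr1 r2 hr2
      obtain ⟨_, hrc, _⟩ := hc hr
      refine ⟨r, hr, hrc, ?_⟩
      have f1 := TEq.mapR (F.proj2 r1 r hrc1 hrc fun a b h => i1 h) e1
      have f2 := TEq.mapR (F.proj2 r2 r hrc2 hrc fun a b h => i2 h) e2
      exact EqvGen.trans _ _ _ f1 f2
  obtain ⟨r, hr, hrc, e⟩ := key _ _ hE a a' rfl rfl
  obtain ⟨_, hrc', hfl⟩ := hc hr
  have e2 := (flat_iff _).1 hfl X Y f hf _ _ _ _ e
  exact TEq.mapR (F.proj2 r σ hrc hσc fun a b h => ⟨r, hr, h⟩) e2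

/-- `g : W → A` has no proper flat quotients -/
def Tight {W A : RAct S} (g : RHom W A) : Prop :=
  ∀ (V : RAct S) (k : RHom V A) (q : RHom W V), Flat V → Function.Surjective q.toFun →
    (∀ a, k.toFun (q.toFun a) = g.toFun a) → Function.Injective q.toFun

/-- every flat act over `A` has a tight flat quotient -/
theorem exists_tight {F A : RAct S} (hF : Flat F) (h : RHom F A) :
    ∃ (W : RAct S) (g : RHom W A) (q : RHom F W), Flat W ∧ Tight g ∧
      ∀ a, g.toFun (q.toFun a) = h.toFun a := by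
  have hbot : (⊥ : Setoid F.carrier) ∈ FQ h := by
    have hb : ∀ a b s, (⊥ : Setoid F.carrier) a b → (⊥ : Setoid F.carrier) (F.act a s) (F.act b s) := by
      intro a b s hab
      have : a = b := hab
      subst this
      exact (⊥ : Setoid F.carrier).refl _
    refine ⟨fun a b hab => congrArg _ hab, hb, ?_⟩
    refine flat_of_iso (F.desc _ hb (RHom.id F) fun a b hab => hab) ⟨?_, ?_⟩ hF
    · intro a b hab
      obtain ⟨a, rfl⟩ := proj_surj F _ hb a
      obtain ⟨b, rfl⟩ := proj_surj F _ hb b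
      have : a = b := hab
      rw [this]
    · intro a
      exact ⟨(F.proj _ hb).toFun a, rfl⟩
  obtain ⟨r, -, hr⟩ := zorn_le_nonempty₀ (FQ h) (fun c hc hch r0 hr0 => chain_ub h c hc hch r0 hr0)
    ⊥ hbot
  obtain ⟨hrh, hrc, hfl⟩ := hr.prop
  refine ⟨F.quot r hrc, F.desc r hrc h hrh, F.proj r hrc, hfl, ?_, fun a => rfl⟩
  intro V k q hV hq hk
  -- the kernel of the composite
  let r' : Setoid F.carrier :=
    Setoid.comap (fun a => q.toFun ((F.proj r hrc).toFun a)) ⊥
  have hr'iff : ∀ a b, r' a b ↔ q.toFun ((F.proj r hrc).toFun a) =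
    q.toFun ((F.proj r hrc).toFun b) := fun a b => Iff.rfl
  have hr'c : ∀ a b s, r' a b → r' (F.act a s) (F.act b s) := by
    intro a b s hab
    rw [hr'iff] at hab ⊢
    rw [(F.proj r hrc).map_act, (F.proj r hrc).map_act, q.map_act, q.map_act, hab]
  have hr' : r' ∈ FQ h := by
    refine ⟨fun a b hab => ?_, hr'c, ?_⟩
    · rw [hr'iff] at hab
      have h1 := hk ((F.proj r hrc).toFun a)
      have h2 := hk ((F.proj r hrc).toFun b)
      rw [hab, h2] at h1
      exact h1.symm
    · refine flat_of_iso (F.desc r' hr'c (q.comp (F.proj r hrc)) fun a b hab => hab) ⟨?_, ?_⟩ hV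
      · intro a b hab
        obtain ⟨a, rfl⟩ := proj_surj F r' hr'c a
        obtain ⟨b, rfl⟩ := proj_surj F r' hr'c b
        exact proj_eq.2 hab
      · intro v
        obtain ⟨w, rfl⟩ := hq v
        obtain ⟨a, rfl⟩ := proj_surj F r hrc w
        exact ⟨(F.proj r' hr'c).toFun a, rfl⟩
  have hle : r ≤ r' := by
    intro a b hab
    have : (F.proj r hrc).toFun a = (F.proj r hrc).toFun b := proj_eq.2 hab
    exact (hr'iff a b).2 (by rw [this])
  have hge : r' ≤ r := hr.le_of_ge hr' hle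
  intro a b hab
  obtain ⟨a, rfl⟩ := proj_surj F r hrc a
  obtain ⟨b, rfl⟩ := proj_surj F r hrc b
  exact proj_eq.2 (hge hab)

/-- iterates of an endomorphism -/
theorem iter_act {W : RAct S} (f : RHom W W) (n : ℕ) (a : W.carrier) (s : S) :
    f.toFun^[n] (W.act a s) = W.act (f.toFun^[n] a) s := by
  induction n generalizing a with
  | zero => rfl
  | succ n ih => rw [Function.iterate_succ_apply, Function.iterate_succ_apply, f.map_act, ih]

/-- iterates of an endomorphism -/
def RHom.iter {W : RAct S} (f : RHom W W) (n : ℕ) : RHom W W where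
  toFun := f.toFun^[n]
  map_act := iter_act f n

/-- the quotient of a flat act by an endomorphism is flat, so that an endomorphism of a tight flat
act is the identity -/
theorem tight_endo {W A : RAct S} (hW : Flat W) (g : RHom W A) (hg : Tight g) (f : RHom W W)
    (hf : ∀ a, g.toFun (f.toFun a) = g.toFun a) (a : W.carrier) : f.toFun a = a := by
  let r : Setoid W.carrier :=
    { r := fun a b => ∃ n m : ℕ, f.toFun^[n] a = f.toFun^[m] b
      iseqv := ⟨fun a => ⟨0, 0, rfl⟩, fun ⟨n, m, h⟩ => ⟨m, n, h.symm⟩,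
        fun {a b c} ⟨n, m, h⟩ ⟨k, l, h'⟩ => ⟨k + n, m + l, by
          rw [Function.iterate_add_apply, h, ← Function.iterate_add_apply, add_comm k m,
            Function.iterate_add_apply, h', ← Function.iterate_add_apply]⟩⟩ }
  have hriff : ∀ a b, r a b ↔ ∃ n m : ℕ, f.toFun^[n] a = f.toFun^[m] b := fun a b => Iff.rfl
  have hrc : ∀ a b s, r a b → r (W.act a s) (W.act b s) := by
    rintro a b s ⟨n, m, h⟩
    exact ⟨n, m, by rw [iter_act, iter_act, h]⟩
  have hgn : ∀ (n : ℕ) a, g.toFun (f.toFun^[n] a) = g.toFun a := by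
    intro n
    induction n with
    | zero => intro a; rfl
    | succ n ih => intro a; rw [Function.iterate_succ_apply, ih, hf]
  have hV : Flat (W.quot r hrc) := by
    rw [flat_iff]
    intro X Y i hi a x a' x' hE
    obtain ⟨a, rfl⟩ := proj_surj W r hrc a
    obtain ⟨a', rfl⟩ := proj_surj W r hrc a'
    have key : ∀ p q : (W.quot r hrc).carrier × Y.carrier, TEq (W.quot r hrc) Y p q →
        ∀ a a', p.1 = (W.proj r hrc).toFun a → q.1 = (W.proj r hrc).toFun a' →
          ∃ n m : ℕ, TEq W Y (f.toFun^[n] a, p.2) (f.toFun^[m] a', q.2) := by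
      intro p q hpq
      induction hpq with
      | rel p q h =>
        obtain ⟨b, s, y, rfl, rfl⟩ := h
        obtain ⟨b, rfl⟩ := proj_surj W r hrc b
        intro a a' h1 h2
        simp only at h1 h2
        rw [← (W.proj r hrc).map_act, proj_eq] at h1
        rw [proj_eq] at h2
        obtain ⟨n, m, e1⟩ := h1
        obtain ⟨k, l, e2⟩ := h2
        -- f^n (b s) = f^m a, f^k b = f^l a'
        refine ⟨k + m, n + l, ?_⟩
        simp only
        rw [Function.iterate_add_apply, ← e1, ← Function.iterate_add_apply,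
          Function.iterate_add_apply (m := n) (n := l), ← e2, ← Function.iterate_add_apply,
          add_comm n k, iter_act]
        exact TEq.single _ _ _
      | refl p =>
        intro a a' h1 h2
        rw [h1, proj_eq] at h2
        obtain ⟨n, m, e⟩ := h2
        refine ⟨n, m, ?_⟩
        rw [e]
        exact EqvGen.refl _
      | symm p q _ ih =>
        intro a a' h1 h2
        obtain ⟨n, m, e⟩ := ih a' a h2 h1
        exact ⟨m, n, EqvGen.symm _ _ e⟩
      | trans p q t _ _ ih1 ih2 =>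
        intro a a' h1 h2
        obtain ⟨b, hb⟩ := proj_surj W r hrc q.1
        obtain ⟨n, m, e1⟩ := ih1 a b h1 hb.symm
        obtain ⟨k, l, e2⟩ := ih2 b a' hb.symm h2
        refine ⟨k + n, m + l, ?_⟩
        have f1 := TEq.mapR (f.iter k) e1
        have f2 := TEq.mapR (f.iter m) e2
        change TEq W Y (f.toFun^[k] (f.toFun^[n] a), p.2) (f.toFun^[k] (f.toFun^[m] b), q.2) at f1
        change TEq W Y (f.toFun^[m] (f.toFun^[k] b), q.2) (f.toFun^[m] (f.toFun^[l] a'), t.2) at f2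
        rw [← Function.iterate_add_apply, ← Function.iterate_add_apply] at f1 f2
        rw [add_comm m k] at f2
        exact EqvGen.trans _ _ _ f1 f2
    obtain ⟨n, m, e⟩ := key _ _ hE a a' rfl rfl
    have e2 := (flat_iff _).1 hW X Y i hi _ _ _ _ e
    have e3 := TEq.mapR (W.proj r hrc) e2
    have h1 : ∀ (n : ℕ) a, (W.proj r hrc).toFun (f.toFun^[n] a) = (W.proj r hrc).toFun a := by
      intro n a
      rw [proj_eq]
      exact ⟨0, n, rfl⟩
    simpa only [h1] using e3
  have hinj := hg (W.quot r hrc) (W.desc r hrc g (by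
    rintro a b ⟨n, m, h⟩
    rw [← hgn n a, h, hgn])) (W.proj r hrc) hV (proj_surj W r hrc) fun a => rfl
  apply hinj
  rw [proj_eq]
  exact ⟨0, 1, rfl⟩

end Pool.Agent.R664.FC
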