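import Mathlib

/-!
# Acts over a monoid, tensor products, flat acts and flat covers
-/

set_option autoImplicit false

universe u

namespace Pool.Agent.R664.FC

/-- right acts over a monoid `S` (nonempty) -/
structure RAct (S : Type u) [Monoid S] where
  /-- the underlying set -/
  carrier : Type u
  nonempty : Nonempty carrier
  /-- the action `(a, s) ↦ as` -/
  act : carrier → S → carrier
  act_one : ∀ a, act a 1 = a
  act_mul : ∀ a s t, act a (s * t) = act (act a s) t

/-- left acts over a monoid `S` (nonempty) -/
structure LAct (S : Type u) [Monoid S] where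
  /-- the underlying set -/
  carrier : Type u
  nonempty : Nonempty carrier
  /-- the action `(s, x) ↦ sx` -/
  act : S → carrier → carrier
  one_act : ∀ x, act 1 x = x
  mul_act : ∀ s t x, act (s * t) x = act s (act t x)

/-- morphisms of right acts -/
structure RHom {S : Type u} [Monoid S] (A B : RAct S) where
  /-- the underlying map -/
  toFun : A.carrier → B.carrier
  map_act : ∀ a s, toFun (A.act a s) = B.act (toFun a) s

/-- morphisms of left acts -/
structure LHom {S : Type u} [Monoid S] (X Y : LAct S) where
  /-- the underlying map -/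
  toFun : X.carrier → Y.carrier
  map_act : ∀ s x, toFun (X.act s x) = Y.act s (toFun x)

variable {S : Type u} [Monoid S]

/-- the relation `(as, x) ∼ (a, sx)` -/
def TRel (A : RAct S) (X : LAct S) : A.carrier × X.carrier → A.carrier × X.carrier → Prop :=
  fun p q => ∃ a s x, p = (A.act a s, x) ∧ q = (a, X.act s x)

/-- the tensor product `A ⊗ X`: the quotient of `A × X` by the equivalence relation generated by
`(as, x) ∼ (a, sx)` -/
def Tensor (A : RAct S) (X : LAct S) : Type u := Quot (TRel A X)

/-- the map `A ⊗ f` -/
def Tensor.map (A : RAct S) {X Y : LAct S} (f : LHom X Y) : Tensor A X → Tensor A Y :=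
  Quot.map (fun p => (p.1, f.toFun p.2)) (by
    rintro _ _ ⟨a, s, x, rfl, rfl⟩
    exact ⟨a, s, f.toFun x, rfl, by rw [f.map_act]⟩)

/-- a right act `A` is flat if `A ⊗ -` maps injective morphisms to injective maps -/
def Flat (A : RAct S) : Prop :=
  ∀ (X Y : LAct S) (f : LHom X Y), Function.Injective f.toFun →
    Function.Injective (Tensor.map A f)

/-- `g : F → A` is a flat cover: `F` is flat, every morphism `h : F' → A` with `F'` flat factors
through `g`, and every endomorphism `f` of `F` with `g ∘ f = g` is an automorphism. -/
def IsFlatCover {F A : RAct S} (g : RHom F A) : Prop :=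
  Flat F ∧
  (∀ (F' : RAct S) (h : RHom F' A), Flat F' →
    ∃ f : RHom F' F, ∀ x, g.toFun (f.toFun x) = h.toFun x) ∧
  ∀ f : RHom F F, (∀ x, g.toFun (f.toFun x) = g.toFun x) →
    ∃ f' : RHom F F, (∀ x, f'.toFun (f.toFun x) = x) ∧ ∀ x, f.toFun (f'.toFun x) = x

end Pool.Agent.R664.FC
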