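import Pool.Agent.R664.FC.Pure

set_option autoImplicit false

universe u

namespace Pool.Agent.R664.FC

open Relation

variable {S : Type u} [Monoid S]

/-- flat acts over `A` whose underlying set is a subset of the bound -/
structure Idx (A : RAct S) : Type u where
  /-- the underlying set -/
  T : Set (Bd A)
  ne : Nonempty T
  /-- the action -/
  act : T → S → T
  act_one : ∀ a, act a 1 = a
  act_mul : ∀ a s t, act a (s * t) = act (act a s) t
  /-- the map to `A` -/
  h : T → A.carrier
  h_act : ∀ a s, h (act a s) = A.act (h a) s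
  flat : Flat (⟨T, ne, act, act_one, act_mul⟩ : RAct S)

/-- the act of an index -/
def Idx.obj {A : RAct S} (i : Idx A) : RAct S := ⟨i.T, i.ne, i.act, i.act_one, i.act_mul⟩

/-- the morphism of an index -/
def Idx.hom {A : RAct S} (i : Idx A) : RHom i.obj A := ⟨i.h, i.h_act⟩

/-- every flat act over `A` maps to one of the acts of the index set -/
theorem exists_idx {F A : RAct S} (hF : Flat F) (h : RHom F A) :
    ∃ (i : Idx A) (f : RHom F i.obj), ∀ x, i.hom.toFun (f.toFun x) = h.toFun x := by
  obtain ⟨W, g, q, hW, hg, hq⟩ := exists_tight hF h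
  have hinj := code_inj hW g hg
  let e : W.carrier ≃ Set.range (code g) := Equiv.ofInjective (code g) hinj
  have he : ∀ x, e.symm (e x) = x := e.symm_apply_apply
  have he' : ∀ x, e (e.symm x) = x := e.apply_symm_apply
  let act : Set.range (code g) → S → Set.range (code g) := fun a s => e (W.act (e.symm a) s)
  have act_one : ∀ a, act a 1 = a := fun a => by
    change e (W.act (e.symm a) 1) = a
    rw [W.act_one, he']
  have act_mul : ∀ a s t, act a (s * t) = act (act a s) t := fun a s t => by
    change e (W.act (e.symm a) (s * t)) = e (W.act (e.symm (e (W.act (e.symm a) s))) t)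
    rw [he, W.act_mul]
  let V : RAct S := ⟨Set.range (code g), W.nonempty.map e, act, act_one, act_mul⟩
  let k : RHom V W := ⟨e.symm, fun a s => by
    change e.symm (e (W.act (e.symm a) s)) = _
    rw [he]⟩
  have hV : Flat V := flat_of_iso k e.symm.bijective hW
  let i : Idx A := ⟨Set.range (code g), W.nonempty.map e, act, act_one, act_mul,
    fun a => g.toFun (e.symm a), fun a s => by
      change g.toFun (e.symm (e (W.act (e.symm a) s))) = _
      rw [he, g.map_act], hV⟩
  refine ⟨i, ⟨fun x => e (q.toFun x), fun a s => ?_⟩, fun x => ?_⟩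
  · change e (q.toFun (F.act a s)) = e (W.act (e.symm (e (q.toFun a))) s)
    rw [he, q.map_act]
  · change g.toFun (e.symm (e (q.toFun x))) = h.toFun x
    rw [he, hq]

theorem idx_nonempty (A : RAct S) : Nonempty (Idx A) := by
  obtain ⟨a⟩ := A.nonempty
  let h : RHom (freeAct S) A := ⟨fun s => A.act a s, fun s t => A.act_mul a s t⟩
  obtain ⟨i, -, -⟩ := exists_idx flat_free h
  exact ⟨i⟩

/-- every right act over a monoid has a flat cover, all of whose endomorphisms over the given act
are trivial -/
theorem exists_cover (A : RAct S) : ∃ (F : RAct S) (g : RHom F A), Flat F ∧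
    (∀ (F' : RAct S) (h : RHom F' A), Flat F' →
      ∃ f : RHom F' F, ∀ x, g.toFun (f.toFun x) = h.toFun x) ∧
    ∀ f : RHom F F, (∀ x, g.toFun (f.toFun x) = g.toFun x) → ∀ x, f.toFun x = x := by
  have := idx_nonempty A
  let U : RAct S := coprod (fun i : Idx A => i.obj)
  have hU : Flat U := flat_coprod _ fun i => i.flat
  let hUA : RHom U A := ⟨fun p => p.1.hom.toFun p.2, fun p s => p.1.hom.map_act p.2 s⟩
  obtain ⟨W, g, q, hW, hg, hq⟩ := exists_tight hU hUA
  refine ⟨W, g, hW, ?_, fun f hf => tight_endo hW g hg f hf⟩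
  intro F' h hF'
  obtain ⟨i, f, hf⟩ := exists_idx hF' h
  refine ⟨q.comp ((inj _ i).comp f), fun x => ?_⟩
  exact (hq ⟨i, f.toFun x⟩).trans (hf x)

theorem main (A : RAct S) : ∃ (F : RAct S) (g : RHom F A), IsFlatCover g := by
  obtain ⟨F, g, h1, h2, h3⟩ := exists_cover A
  exact ⟨F, g, h1, h2, fun f hf => ⟨RHom.id F, h3 f hf, h3 f hf⟩⟩

end Pool.Agent.R664.FC
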