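import Pool.Agent.R664.FC.Closure

set_option autoImplicit false

universe u

namespace Pool.Agent.R664.FC

open Relation

variable {S : Type u} [Monoid S]

/-- `a` is the start of a sequence of the shape `w` -/
def HS (A : RAct S) : List (Bool × S) → A.carrier → Prop
  | [], _ => True
  | (true, s) :: w, a => ∃ b, A.act b s = a ∧ HS A w b
  | (false, s) :: w, a => HS A w (A.act a s)

/-- a path in a tensor product has a shape, and it can be transferred along this shape -/
theorem path_shape {A : RAct S} {Y : LAct S} {p q : A.carrier × Y.carrier} (h : TEq A Y p q) :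
    ∃ w, HS A w p.1 ∧ ∀ (B : RAct S) (b : B.carrier), HS B w b →
      ∃ b', TEq B Y (b, p.2) (b', q.2) := by
  have h' := h.path
  induction h' using ReflTransGen.head_induction_on with
  | refl => exact ⟨[], trivial, fun B b _ => ⟨b, EqvGen.refl _⟩⟩
  | head hst hrest ih =>
    rename_i p r
    have hr : TEq A Y r q := by
      clear * - hrest
      induction hrest with
      | refl => exact EqvGen.refl _
      | tail _ h ih => exact EqvGen.trans _ _ _ ih h.teq
    obtain ⟨w, h1, h2⟩ := ih hr
    rcases hst with ⟨s, e1, e2⟩ | ⟨s, e1, e2⟩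
    · refine ⟨(true, s) :: w, ⟨r.1, e1, h1⟩, ?_⟩
      rintro B b ⟨c, hc, hw⟩
      obtain ⟨b', hb'⟩ := h2 B c hw
      refine ⟨b', EqvGen.trans _ _ _ ?_ hb'⟩
      rw [← hc, e2]
      exact TEq.single _ _ _
    · refine ⟨(false, s) :: w, ?_, ?_⟩
      · change HS A w (A.act p.1 s)
        rw [← e1]
        exact h1
      · intro B b hb
        obtain ⟨b', hb'⟩ := h2 B (B.act b s) hb
        refine ⟨b', EqvGen.trans _ _ _ ?_ hb'⟩
        rw [e2]
        exact EqvGen.symm _ _ (TEq.single _ _ _)

/-- morphisms which reflect the sequences -/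
def Refl {P W : RAct S} (i : RHom P W) : Prop := ∀ w p, HS W w (i.toFun p) → HS P w p

/-- the congruence which identifies the two images -/
def glue {P W : RAct S} (i j : RHom P W) : Setoid W.carrier :=
  EqvGen.setoid fun a b => ∃ p, a = i.toFun p ∧ b = j.toFun p

theorem glue_act {P W : RAct S} (i j : RHom P W) : ∀ a b s, glue i j a b →
    glue i j (W.act a s) (W.act b s) := by
  intro a b s h
  have h' : EqvGen (fun a b => ∃ p, a = i.toFun p ∧ b = j.toFun p) a b := h
  clear h
  change EqvGen (fun a b => ∃ p, a = i.toFun p ∧ b = j.toFun p) _ _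
  induction h' with
  | rel a b h =>
    obtain ⟨p, rfl, rfl⟩ := h
    exact EqvGen.rel _ _ ⟨P.act p s, by rw [i.map_act], by rw [j.map_act]⟩
  | refl a => exact EqvGen.refl _
  | symm a b _ ih => exact EqvGen.symm _ _ ih
  | trans a b c _ _ ih1 ih2 => exact EqvGen.trans _ _ _ ih1 ih2

theorem glue_flat {P W : RAct S} (hW : Flat W) (i j : RHom P W) (hi : Refl i) (hj : Refl j) :
    Flat (W.quot (glue i j) (glue_act i j)) := by
  rw [flat_iff]
  intro X Y f hf a x a' x' hE
  set r := glue i j with hr
  have hrc := glue_act i j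
  obtain ⟨a, rfl⟩ := proj_surj W r hrc a
  obtain ⟨a', rfl⟩ := proj_surj W r hrc a'
  have hfl := (flat_iff _).1 hW X Y f hf
  let J : W.carrier → Y.carrier → Prop := fun b y => ∃ c x1,
    TEq W Y (b, y) (c, f.toFun x1) ∧
      TEq (W.quot r hrc) X ((W.proj r hrc).toFun a, x) ((W.proj r hrc).toFun c, x1)
  -- one gluing move
  have move : ∀ (i' j' : RHom P W), Refl i' → (∀ p, r (i'.toFun p) (j'.toFun p)) →
      ∀ p y, J (i'.toFun p) y → J (j'.toFun p) y := by
    rintro i' j' hi' hij p y ⟨c, x1, h1, h2⟩
    obtain ⟨w, h3, h4⟩ := path_shape h1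
    obtain ⟨p', h5⟩ := h4 P p (hi' w p h3)
    have h6 := TEq.mapR i' h5
    have h7 := TEq.mapR j' h5
    have h8 : TEq W X (c, x1) (i'.toFun p', x1) :=
      hfl _ _ _ _ (EqvGen.trans _ _ _ (EqvGen.symm _ _ h1) h6)
    refine ⟨j'.toFun p', x1, h7, EqvGen.trans _ _ _ h2 ?_⟩
    have h9 := TEq.mapR (W.proj r hrc) h8
    have h10 : (W.proj r hrc).toFun (i'.toFun p') = (W.proj r hrc).toFun (j'.toFun p') :=
      proj_eq.2 (hij p')
    simp only at h9
    rw [h10] at h9
    exact h9
  have hmove : ∀ b b', r b b' → ∀ y, J b y ↔ J b' y := by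
    intro b b' hbb
    have h' : EqvGen (fun a b => ∃ p, a = i.toFun p ∧ b = j.toFun p) b b' := hbb
    clear hbb
    induction h' with
    | rel a b h =>
      obtain ⟨p, rfl, rfl⟩ := h
      intro y
      have h1 : ∀ p, r (i.toFun p) (j.toFun p) := fun p => EqvGen.rel _ _ ⟨p, rfl, rfl⟩
      exact ⟨move i j hi h1 p y, move j i hj (fun p => r.symm (h1 p)) p y⟩
    | refl a => exact fun y => Iff.rfl
    | symm a b _ ih => exact fun y => (ih y).symm
    | trans a b c _ _ ih1 ih2 => exact fun y => (ih1 y).trans (ih2 y)
  have key : ∀ q : (W.quot r hrc).carrier × Y.carrier,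
      ReflTransGen (St (W.quot r hrc) Y) ((W.proj r hrc).toFun a, f.toFun x) q →
      ∀ b, (W.proj r hrc).toFun b = q.1 → J b q.2 := by
    intro q hq
    induction hq with
    | refl =>
      intro b hb
      rw [proj_eq] at hb
      exact (hmove _ _ hb _).2 ⟨a, x, EqvGen.refl _, EqvGen.refl _⟩
    | tail _ hst ih =>
      rename_i p q _
      intro b hb
      rcases hst with ⟨s, e1, e2⟩ | ⟨s, e1, e2⟩
      · have h1 : (W.proj r hrc).toFun (W.act b s) = p.1 := by
          rw [(W.proj r hrc).map_act, hb, e1]
        obtain ⟨c, x1, h2, h3⟩ := ih _ h1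
        refine ⟨c, x1, EqvGen.trans _ _ _ ?_ h2, h3⟩
        rw [e2]
        exact EqvGen.symm _ _ (TEq.single _ _ _)
      · obtain ⟨d, hd⟩ := proj_surj W r hrc p.1
        obtain ⟨c, x1, h2, h3⟩ := ih d hd
        have h4 : (W.proj r hrc).toFun (W.act d s) = (W.proj r hrc).toFun b := by
          rw [(W.proj r hrc).map_act, hd, hb, e1]
        rw [proj_eq] at h4
        refine (hmove _ _ h4 _).1 ⟨c, x1, EqvGen.trans _ _ _ ?_ h2, h3⟩
        rw [e2]
        exact TEq.single _ _ _
  obtain ⟨c, x1, h1, h2⟩ := key _ hE.path a' rfl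
  have h3 := hfl _ _ _ _ h1
  have h4 := TEq.mapR (W.proj r hrc) h3
  exact EqvGen.trans _ _ _ h2 (EqvGen.symm _ _ h4)

/-- two reflecting morphisms into a tight flat act over `A` coincide -/
theorem tight_pair {P W A : RAct S} (hW : Flat W) (g : RHom W A) (hg : Tight g) (i j : RHom P W)
    (hi : Refl i) (hj : Refl j) (hij : ∀ p, g.toFun (i.toFun p) = g.toFun (j.toFun p))
    (p : P.carrier) : i.toFun p = j.toFun p := by
  have hle : ∀ a b, glue i j a b → g.toFun a = g.toFun b := by
    intro a b h
    have h' : EqvGen (fun a b => ∃ p, a = i.toFun p ∧ b = j.toFun p) a b := h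
    clear h
    induction h' with
    | rel a b h =>
      obtain ⟨p, rfl, rfl⟩ := h
      exact hij p
    | refl a => rfl
    | symm a b _ ih => exact ih.symm
    | trans a b c _ _ ih1 ih2 => exact ih1.trans ih2
  have hinj := hg _ (W.desc (glue i j) (glue_act i j) g hle) (W.proj (glue i j) (glue_act i j))
    (glue_flat hW i j hi hj) (proj_surj W _ _) fun a => rfl
  apply hinj
  rw [proj_eq]
  exact EqvGen.rel _ _ ⟨p, rfl, rfl⟩

/-- Skolem terms -/
inductive Tm (S : Type u) : Type u
  | base : Tm S
  | mul : Tm S → S → Tm S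
  | sk : Tm S → S → List (Bool × S) → Tm S

open scoped Classical in
/-- the values of the terms -/
noncomputable def val (W : RAct S) (x : W.carrier) : Tm S → W.carrier
  | Tm.base => x
  | Tm.mul t s => W.act (val W x t) s
  | Tm.sk t s w => if h : ∃ b, W.act b s = val W x t ∧ HS W w b then h.choose else val W x t

theorem val_sk (W : RAct S) (x : W.carrier) (t : Tm S) (s : S) (w : List (Bool × S))
    (h : ∃ b, W.act b s = val W x t ∧ HS W w b) :
    W.act (val W x (Tm.sk t s w)) s = val W x t ∧ HS W w (val W x (Tm.sk t s w)) := by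
  have e : val W x (Tm.sk t s w) = h.choose := by
    rw [val, dif_pos h]
  rw [e]
  exact h.choose_spec

/-- the kernel of the evaluation -/
noncomputable def ker (W : RAct S) (x : W.carrier) : Setoid (Tm S) := Setoid.ker (val W x)

theorem ker_iff {W : RAct S} {x : W.carrier} {t t' : Tm S} :
    ker W x t t' ↔ val W x t = val W x t' := Iff.rfl

/-- the subact of the values, as a quotient of the set of terms -/
noncomputable def PA (W : RAct S) (x : W.carrier) : RAct S where
  carrier := Quotient (ker W x)
  nonempty := ⟨Quotient.mk _ Tm.base⟩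
  act := fun q s => Quotient.map (fun t => Tm.mul t s) (fun t t' h => by
    have h' : val W x t = val W x t' := h
    change val W x (Tm.mul t s) = val W x (Tm.mul t' s)
    rw [val, val, h']) q
  act_one := by
    intro q
    induction q using Quotient.inductionOn with
    | h t =>
      apply Quotient.sound
      change val W x (Tm.mul t 1) = val W x t
      rw [val, W.act_one]
  act_mul := by
    intro q s s'
    induction q using Quotient.inductionOn with
    | h t =>
      apply Quotient.sound
      change val W x (Tm.mul t (s * s')) = val W x (Tm.mul (Tm.mul t s) s')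
      rw [val, val, val, W.act_mul]

/-- the evaluation at a point with the same kernel -/
noncomputable def ev (W : RAct S) (x y : W.carrier) (h : ker W x = ker W y) :
    RHom (PA W x) W where
  toFun := Quotient.lift (val W y) (by
    intro t t' ht
    have h1 : ker W x t t' := ht
    rw [h] at h1
    exact h1)
  map_act := by
    intro q s
    induction q using Quotient.inductionOn with
    | h t => rfl

theorem ev_refl (W : RAct S) (x y : W.carrier) (h : ker W x = ker W y) : Refl (ev W x y h) := by
  intro w
  induction w with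
  | nil => intro _ _; trivial
  | cons d w ih =>
    obtain ⟨b, s⟩ := d
    intro q
    induction q using Quotient.inductionOn with
    | h t =>
      intro hq
      cases b with
      | true =>
        have h1 : ∃ b, W.act b s = val W y t ∧ HS W w b := hq
        obtain ⟨h2, h3⟩ := val_sk W y t s w h1
        refine ⟨Quotient.mk _ (Tm.sk t s w), ?_, ih _ h3⟩
        apply Quotient.sound
        have h4 : ker W y (Tm.mul (Tm.sk t s w) s) t := h2
        rw [← h] at h4
        exact h4
      | false => exact ih _ hq

/-- the bound for the size of the tight flat acts over `A` -/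
abbrev Bd (A : RAct S) : Type u := (Tm S → Tm S → Prop) × (Tm S → A.carrier)

/-- the code of a point -/
noncomputable def code {W A : RAct S} (g : RHom W A) (x : W.carrier) : Bd A :=
  (fun t t' => val W x t = val W x t', fun t => g.toFun (val W x t))

theorem code_inj {W A : RAct S} (hW : Flat W) (g : RHom W A) (hg : Tight g) :
    Function.Injective (code g) := by
  intro x y hxy
  have h1 := congrArg Prod.fst hxy
  have h2 := congrArg Prod.snd hxy
  have hk : ker W x = ker W y := by
    ext t t'
    rw [ker_iff, ker_iff]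
    exact iff_of_eq (congrFun (congrFun h1 t) t')
  have h3 := tight_pair hW g hg (ev W x x rfl) (ev W x y hk) (ev_refl _ _ _ _) (ev_refl _ _ _ _)
    (by
      intro q
      induction q using Quotient.inductionOn with
      | h t => exact congrFun h2 t) (Quotient.mk _ Tm.base)
  exact h3

end Pool.Agent.R664.FC
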